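import Pool.Agent.Helper48.AED.Spec

open Finset Matrix

namespace Pool.Agent.Helper56.AED.FIN

open Pool.AED48

variable {n d : ℕ} {A : Matrix (Fin n) (Fin n) ℝ} {μ : Fin n → ℝ} {U : Fin n → Fin n → ℝ}

theorem pars (h : SD A μ U) (v y : Fin n → ℝ) :
    ∑ b, (∑ i, U b i * v i) * (∑ j, U b j * y j) = ∑ i, v i * y i := by
  have e1 : ∀ b, (∑ i, U b i * v i) * (∑ j, U b j * y j) =
      ∑ i, ∑ j, (v i * y j) * (U b i * U b j) := by
    intro b
    rw [Finset.sum_mul_sum]
    refine Finset.sum_congr rfl fun i _ => Finset.sum_congr rfl fun j _ => ?_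
    ring
  simp_rw [e1]
  rw [Finset.sum_comm]
  refine Finset.sum_congr rfl fun i _ => ?_
  rw [Finset.sum_comm]
  rw [Finset.sum_eq_single i]
  · rw [← Finset.mul_sum, h.orth' i i, if_pos rfl, mul_one]
  · intro j _ hj
    rw [← Finset.mul_sum, h.orth' i j, if_neg (Ne.symm hj), mul_zero]
  · intro hi; exact absurd (Finset.mem_univ i) hi

theorem quad (h : SD A μ U) (v y : Fin n → ℝ) :
    ∑ b, μ b * ((∑ i, U b i * v i) * (∑ j, U b j * y j)) = ∑ i, ∑ j, v i * A i j * y j := by
  have e1 : ∀ b, μ b * ((∑ i, U b i * v i) * (∑ j, U b j * y j)) =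
      ∑ i, ∑ j, (v i * y j) * (μ b * U b i * U b j) := by
    intro b
    rw [Finset.sum_mul_sum, Finset.mul_sum]
    refine Finset.sum_congr rfl fun i _ => ?_
    rw [Finset.mul_sum]
    refine Finset.sum_congr rfl fun j _ => ?_
    ring
  simp_rw [e1]
  rw [Finset.sum_comm]
  refine Finset.sum_congr rfl fun i _ => ?_
  rw [Finset.sum_comm]
  refine Finset.sum_congr rfl fun j _ => ?_
  rw [← Finset.mul_sum, ← h.eq i j]
  ring

theorem qf_eq (h : SD A μ U) (v : Fin n → ℝ) :
    qf A v = ∑ b, (1 + μ b) * (∑ i, U b i * v i) ^ 2 := by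
  unfold qf
  rw [← quad h v v]
  have : ∑ i, v i ^ 2 = ∑ b, (∑ i, U b i * v i) * (∑ j, U b j * v j) := by
    rw [pars h v v]; exact Finset.sum_congr rfl fun i _ => by ring
  rw [this, ← Finset.sum_add_distrib]
  exact Finset.sum_congr rfl fun b _ => by ring

theorem qf_nonneg (hG : Good n d A) (v : Fin n → ℝ) (hv : ∑ i, v i = 0) : 0 ≤ qf A v := by
  obtain ⟨L, hL⟩ := hG.lin
  rw [hL v hv]
  have : 0 ≤ ∑ r, (L v r) ^ 2 := Finset.sum_nonneg fun r _ => sq_nonneg _
  linarith

theorem main : S_FIN := by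
  intro n d A μ U t a₀ a₁ s hG hS ht h0 h1 hoth hs hw hu hA hsum
  have ha01 : a₀ ≠ a₁ := by
    rintro rfl
    linarith
  -- (3') the final contradiction
  have fin3 : ∑ i, U a₀ i ≠ 0 := by
    intro hz
    have hq := qf_nonneg hG _ hz
    rw [qf_eq hS, Finset.sum_eq_single a₀] at hq
    · rw [hS.orth a₀ a₀, if_pos rfl, h0] at hq
      linarith
    · intro b _ hb
      rw [hS.orth b a₀, if_neg hb]; ring
    · intro h; exact absurd (Finset.mem_univ _) h
  -- (1)
  have s1 : ∀ a, μ a = -1 → ∑ i, U a i = 0 := by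
    intro a ha
    have haa : a ≠ a₀ := by
      rintro rfl
      linarith
    set σ := ∑ i, U a i with hσ
    set τ := ∑ i, U a₀ i with hτ
    let v : Fin n → ℝ := fun i => σ * U a₀ i - τ * U a i
    have hv : ∑ i, v i = 0 := by
      show ∑ i, (σ * U a₀ i - τ * U a i) = 0
      rw [Finset.sum_sub_distrib, ← Finset.mul_sum, ← Finset.mul_sum, ← hσ, ← hτ]
      ring
    have hc : ∀ b, ∑ i, U b i * v i = σ * (if b = a₀ then 1 else 0) - τ * (if b = a then 1 else 0) := by
      intro b
      rw [← hS.orth b a₀, ← hS.orth b a, Finset.mul_sum, Finset.mul_sum, ← Finset.sum_sub_distrib]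
      refine Finset.sum_congr rfl fun i _ => ?_
      show U b i * (σ * U a₀ i - τ * U a i) = _
      ring
    have hq := qf_nonneg hG _ hv
    rw [qf_eq hS, Finset.sum_eq_single a₀] at hq
    · rw [hc, if_pos rfl, if_neg (Ne.symm haa), h0] at hq
      have hq' : 0 ≤ (1 + -t) * σ ^ 2 := by
        have : (1 + -t) * (σ * 1 - τ * 0) ^ 2 = (1 + -t) * σ ^ 2 := by ring
        rwa [this] at hq
      by_contra hne
      have : 0 < σ ^ 2 := by positivity
      nlinarith
    · intro b _ hb
      rw [hc, if_neg hb]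
      by_cases hba : b = a
      · rw [hba, ha]; ring
      · rw [if_neg hba]; ring
    · intro h; exact absurd (Finset.mem_univ _) h
  have hsA : ∀ i j, A i j * s j = - (s i * A i j) := by
    intro i j
    rcases hs i with hi | hi <;> rcases hs j with hj | hj
    · rw [hA i j (by rw [hi, hj]; norm_num)]; ring
    · rw [hi, hj]; ring
    · rw [hi, hj]; ring
    · rw [hA i j (by rw [hi, hj]; norm_num)]; ring
  -- (2)
  have s2 : ∀ a, μ a = 1 → ∑ i, s i * U a i = 0 := by
    intro a ha
    let y : Fin n → ℝ := fun i => s i * U a i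
    have hAy : ∀ i, ∑ j, A i j * y j = - y i := by
      intro i
      have : ∑ j, A i j * y j = - (s i * ∑ j, A i j * U a j) := by
        rw [Finset.mul_sum, ← Finset.sum_neg_distrib]
        refine Finset.sum_congr rfl fun j _ => ?_
        show A i j * (s j * U a j) = _
        rw [← mul_assoc, hsA]; ring
      rw [this, hS.eig, ha]
      show _ = - (s i * U a i)
      ring
    have hcoef : ∀ b, (μ b + 1) * ∑ i, U b i * y i = 0 := by
      intro b
      have e1 : ∑ i, U b i * ∑ j, A i j * y j = - ∑ i, U b i * y i := by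
        rw [← Finset.sum_neg_distrib]
        refine Finset.sum_congr rfl fun i _ => ?_
        rw [hAy]; ring
      have e2 : ∑ i, U b i * ∑ j, A i j * y j = μ b * ∑ i, U b i * y i := by
        simp_rw [Finset.mul_sum]
        rw [Finset.sum_comm]
        refine Finset.sum_congr rfl fun j _ => ?_
        have e3 : ∑ i, U b i * (A i j * y j) = (∑ i, A j i * U b i) * y j := by
          rw [Finset.sum_mul]
          refine Finset.sum_congr rfl fun i _ => ?_
          rw [hG.symm i j]; ring
        rw [e3, hS.eig]; ring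
      linarith
    have hp := pars hS (fun _ => 1) y
    have hz : ∀ b, (∑ i, U b i * (fun _ : Fin n => (1 : ℝ)) i) * (∑ j, U b j * y j) = 0 := by
      intro b
      by_cases hb : μ b = -1
      · have : ∑ i, U b i * (fun _ : Fin n => (1 : ℝ)) i = ∑ i, U b i :=
          Finset.sum_congr rfl fun i _ => by simp
        rw [this, s1 b hb, zero_mul]
      · have hne : μ b + 1 ≠ 0 := fun h => hb (by linarith)
        rw [(mul_eq_zero.mp (hcoef b)).resolve_left hne, mul_zero]
    rw [Finset.sum_eq_zero fun b _ => hz b] at hp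
    have : ∑ i, (fun _ : Fin n => (1 : ℝ)) i * y i = ∑ i, s i * U a i :=
      Finset.sum_congr rfl fun i _ => by simp [y]
    rw [← this, ← hp]
  -- (0)
  have hu2 : ∑ i, U a₁ i * U a₁ i = 1 := by rw [hS.orth, if_pos rfl]
  have s0 : ∑ i, U a₁ i ≠ 0 := by
    let x : Fin n → ℝ := fun i => |U a₁ i|
    let c : Fin n → ℝ := fun b => ∑ i, U b i * x i
    have hx2 : ∑ b, c b * c b = 1 := by
      show ∑ b, (∑ i, U b i * x i) * (∑ i, U b i * x i) = 1
      rw [pars hS x x, ← hu2]
      refine Finset.sum_congr rfl fun i _ => ?_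
      show |U a₁ i| * |U a₁ i| = _
      exact abs_mul_abs_self _
    have hge : t ≤ ∑ b, μ b * (c b * c b) := by
      show t ≤ ∑ b, μ b * ((∑ i, U b i * x i) * (∑ i, U b i * x i))
      rw [quad hS x x]
      have e : t = ∑ i, ∑ j, U a₁ i * A i j * U a₁ j := by
        have : ∑ i, ∑ j, U a₁ i * A i j * U a₁ j = ∑ i, U a₁ i * (t * U a₁ i) := by
          refine Finset.sum_congr rfl fun i _ => ?_
          rw [← h1, ← hS.eig, Finset.mul_sum]
          exact Finset.sum_congr rfl fun j _ => by ring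
        rw [this]
        have : ∑ i, U a₁ i * (t * U a₁ i) = t * ∑ i, U a₁ i * U a₁ i := by
          rw [Finset.mul_sum]
          exact Finset.sum_congr rfl fun i _ => by ring
        rw [this, hu2, mul_one]
      rw [e]
      refine Finset.sum_le_sum fun i _ => Finset.sum_le_sum fun j _ => ?_
      show U a₁ i * A i j * U a₁ j ≤ |U a₁ i| * A i j * |U a₁ j|
      have hh : U a₁ i * U a₁ j ≤ |U a₁ i| * |U a₁ j| := by
        rw [← abs_mul]; exact le_abs_self _
      nlinarith [mul_le_mul_of_nonneg_left hh (hG.nonneg i j)]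
    have hle : ∀ b, b ≠ a₁ → μ b * (c b * c b) ≤ c b * c b := by
      intro b hb
      have hμ : μ b ≤ 1 := by
        by_cases hb0 : b = a₀
        · rw [hb0, h0]; linarith
        · rcases hoth b hb0 hb with h | h <;> rw [h] <;> norm_num
      nlinarith [mul_self_nonneg (c b)]
    have hc1 : 1 ≤ c a₁ * c a₁ := by
      have e1 := Finset.add_sum_erase Finset.univ (fun b => μ b * (c b * c b)) (Finset.mem_univ a₁)
      have e2 := Finset.add_sum_erase Finset.univ (fun b => c b * c b) (Finset.mem_univ a₁)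
      have e3 : ∑ b ∈ Finset.univ.erase a₁, μ b * (c b * c b) ≤
          ∑ b ∈ Finset.univ.erase a₁, c b * c b :=
        Finset.sum_le_sum fun b hb => hle b (Finset.ne_of_mem_erase hb)
      rw [h1] at e1
      by_contra hlt
      push_neg at hlt
      nlinarith
    -- the sign
    intro hzero
    have hxx : ∑ i, x i * x i = 1 := by
      rw [← hu2]
      exact Finset.sum_congr rfl fun i _ => abs_mul_abs_self _
    have hcle : ∀ ε : ℝ, (ε = 1 ∨ ε = -1) → 1 ≤ ε * c a₁ → ∀ i, x i = ε * U a₁ i := by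
      intro ε hε hc
      have hnn : ∀ i ∈ Finset.univ, 0 ≤ x i * x i - ε * (U a₁ i * x i) := by
        intro i _
        have : ε * U a₁ i ≤ x i := by
          show ε * U a₁ i ≤ |U a₁ i|
          rcases hε with rfl | rfl
          · rw [one_mul]; exact le_abs_self _
          · rw [neg_one_mul]; exact neg_le_abs _
        have hx0 : 0 ≤ x i := abs_nonneg _
        nlinarith [mul_le_mul_of_nonneg_right this hx0]
      have hsum0 : ∑ i, (x i * x i - ε * (U a₁ i * x i)) = 0 := by
        apply le_antisymm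
        · rw [Finset.sum_sub_distrib, hxx, ← Finset.mul_sum]
          show 1 - ε * c a₁ ≤ 0
          linarith
        · exact Finset.sum_nonneg hnn
      intro i
      have := (Finset.sum_eq_zero_iff_of_nonneg hnn).mp hsum0 i (Finset.mem_univ i)
      have hx0 : x i ≠ 0 := abs_ne_zero.mpr (hu i)
      have h' : x i * (x i - ε * U a₁ i) = 0 := by linarith
      have := (mul_eq_zero.mp h').resolve_left hx0
      linarith
    have hfin : ∀ ε : ℝ, (∀ i, x i = ε * U a₁ i) → False := by
      intro ε hε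
      have hx : ∑ i, x i = 0 := by
        rw [Finset.sum_congr rfl fun i _ => hε i, ← Finset.mul_sum, hzero, mul_zero]
      have := (Finset.sum_eq_zero_iff_of_nonneg (fun i _ => abs_nonneg (U a₁ i))).mp hx a₁
        (Finset.mem_univ _)
      exact hu a₁ (abs_eq_zero.mp this)
    rcases le_or_gt 0 (c a₁) with hc0 | hc0
    · exact hfin 1 (hcle 1 (Or.inl rfl) (by nlinarith))
    · exact hfin (-1) (hcle (-1) (Or.inr rfl) (by nlinarith))
  -- (3)
  have hp := pars hS (fun _ => 1) s
  have hz : ∀ b, b ≠ a₀ → b ≠ a₁ →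
      (∑ i, U b i * (fun _ : Fin n => (1 : ℝ)) i) * (∑ j, U b j * s j) = 0 := by
    intro b hb0 hb1
    rcases hoth b hb0 hb1 with h | h
    · have : ∑ j, U b j * s j = ∑ j, s j * U b j := Finset.sum_congr rfl fun i _ => by ring
      rw [this, s2 b h, mul_zero]
    · have : ∑ i, U b i * (fun _ : Fin n => (1 : ℝ)) i = ∑ i, U b i :=
        Finset.sum_congr rfl fun i _ => by simp
      rw [this, s1 b h, zero_mul]
  have hone : ∀ b, ∑ i, U b i * (fun _ : Fin n => (1 : ℝ)) i = ∑ i, U b i := fun b =>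
    Finset.sum_congr rfl fun i _ => by simp
  have hss : ∀ i, s i * s i = 1 := fun i => by rcases hs i with h | h <;> rw [h] <;> norm_num
  have hw0 : ∑ j, U a₀ j * s j = ∑ j, U a₁ j := Finset.sum_congr rfl fun j _ => by
    rw [hw j, mul_comm (s j) (U a₁ j), mul_assoc, hss, mul_one]
  have hw1 : ∑ j, U a₁ j * s j = ∑ j, U a₀ j := Finset.sum_congr rfl fun j _ => by
    rw [hw j, mul_comm]
  have hrhs : ∑ i, (fun _ : Fin n => (1 : ℝ)) i * s i = 0 := by
    rw [← hsum]; exact Finset.sum_congr rfl fun i _ => by simp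
  rw [hrhs, ← Finset.add_sum_erase Finset.univ _ (Finset.mem_univ a₀),
    ← Finset.add_sum_erase (Finset.univ.erase a₀) _
      (Finset.mem_erase.mpr ⟨ha01.symm, Finset.mem_univ a₁⟩),
    Finset.sum_eq_zero (s := (Finset.univ.erase a₀).erase a₁)] at hp
  · rw [hone, hone, hw0, hw1] at hp
    have : (∑ i, U a₁ i) * (∑ i, U a₀ i) = 0 := by linarith
    rcases mul_eq_zero.mp this with h | h
    · exact s0 h
    · exact fin3 h
  · intro b hb
    rw [Finset.mem_erase, Finset.mem_erase] at hb
    exact hz b hb.2.1 hb.1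

end Pool.Agent.Helper56.AED.FIN
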